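import Pool.Agent.W619.Y.Stm

/-! Project PG, part PULL: pull-back of sections. -/

set_option autoImplicit false
set_option linter.overlappingInstances false
set_option linter.unusedSectionVars false

universe u v

open FF IntermediateField Pool.Agent.W619.PQ Pool.Agent.W619.PL Pool.Agent.W619.TW
  Pool.Agent.W603.LV Pool.Agent.W619.Y

namespace Pool.Agent.W73.PG.PULL

section

variable {k K L : Type*} [Field k] [CharZero k] [Field K] [Field L] [Algebra k K] [Algebra k L]
  [Algebra K L] [IsScalarTower k K L]

theorem sum_app {ι : Type*} (s : Finset ι) (g : ι → Derivation k K L) (f : K) :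
    (∑ c ∈ s, g c) f = ∑ c ∈ s, g c f := by
  classical
  induction s using Finset.induction_on with
  | empty => rfl
  | insert a s ha ih =>
    rw [Finset.sum_insert ha, Finset.sum_insert ha, ← ih]
    rfl

/-- the chain rule -/
theorem chain {n : ℕ} (y' : Fin n → K) (hy' : IsTranscendenceBasis k y')
    (E' : Fin n → Derivation k K K) (hE' : ∀ i j, E' i (y' j) = if i = j then 1 else 0)
    (D : Derivation k L L) (f : K) :
    D (algebraMap K L f) = ∑ c, D (algebraMap K L (y' c)) * algebraMap K L (E' c f) := by
  have h1 := der_zero ((D.compAlgebraMap K) -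
    ∑ c, (D (algebraMap K L (y' c))) • ((Algebra.linearMap K L).compDer (E' c))) y' hy'
    (fun i => by
      change D (algebraMap K L (y' i)) - (∑ c, (D (algebraMap K L (y' c))) •
        ((Algebra.linearMap K L).compDer (E' c))) (y' i) = 0
      rw [sum_app]
      change D (algebraMap K L (y' i)) - ∑ c, D (algebraMap K L (y' c)) *
        algebraMap K L (E' c (y' i)) = 0
      simp only [hE', apply_ite (algebraMap K L), map_one, map_zero, mul_ite, mul_one, mul_zero,
        Finset.sum_ite_eq', Finset.mem_univ, if_true, sub_self]) f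
  change D (algebraMap K L f) - (∑ c, (D (algebraMap K L (y' c))) •
        ((Algebra.linearMap K L).compDer (E' c))) f = 0 at h1
  rw [sum_app] at h1
  exact sub_eq_zero.1 h1

/-- expansion of a derivation -/
theorem expand {n : ℕ} (y : Fin n → K) (hy : IsTranscendenceBasis k y)
    (E : Fin n → Derivation k K K) (hE : ∀ i j, E i (y j) = if i = j then 1 else 0)
    (D : Derivation k K K) : ∑ b, D (y b) • E b = D := by
  have h1 := der_zero ((∑ b, D (y b) • E b) - D) y hy (fun i => by
    change (∑ b, D (y b) • E b) (y i) - D (y i) = 0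
    rw [sum_app]
    change ∑ b, D (y b) * E b (y i) - D (y i) = 0
    simp only [hE, mul_ite, mul_one, mul_zero, Finset.sum_ite_eq', Finset.mem_univ, if_true,
      sub_self])
  ext f
  exact sub_eq_zero.1 (h1 f)

/-- change of the frame -/
theorem form_eq {n m : ℕ} (y y' : Fin n → K) (hy : IsTranscendenceBasis k y)
    (hy' : IsTranscendenceBasis k y') (E E' : Fin n → Derivation k K K)
    (hE : ∀ i j, E i (y j) = if i = j then 1 else 0)
    (hE' : ∀ i j, E' i (y' j) = if i = j then 1 else 0)
    (ω : (Fin n → Derivation k K K) → K) (hω : IsPluriForm k K n m ω)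
    (D : Fin n → Derivation k L L) :
    (Matrix.of fun a b => D a (algebraMap K L (y b))).det ^ m * algebraMap K L (ω E) =
      (Matrix.of fun a c => D a (algebraMap K L (y' c))).det ^ m * algebraMap K L (ω E') := by
  let P : Matrix (Fin n) (Fin n) K := Matrix.of fun c b => E' c (y b)
  have h1 : ω (fun i => ∑ j, P i j • E j) = P.det ^ m * ω E := hω P E
  have h2 : (fun i => ∑ j, P i j • E j) = E' := by
    funext i
    exact expand y hy E hE (E' i)
  rw [h2] at h1
  have h3 : (Matrix.of fun a b => D a (algebraMap K L (y b))) =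
      (Matrix.of fun a c => D a (algebraMap K L (y' c))) * (algebraMap K L).mapMatrix P := by
    ext a b
    rw [Matrix.mul_apply, Matrix.of_apply, chain y' hy' E' hE' (D a) (y b)]
    rfl
  rw [h3, Matrix.det_mul, ← RingHom.map_det, h1, map_mul, map_pow, mul_pow, mul_assoc]

theorem dom_up [DecidableEq L] {w : Place k L} {v : Place k K} {e : ℕ} (hwv : Over w v e)
    {S : Finset K} {j : ℕ} {X : L} {g : K} (hX : Ge w 0 X) (hg : Dom v S j g) :
    Dom w (S.image (algebraMap K L)) j (X * algebraMap K L g) := by
  rcases hg with hg | ⟨s, hs, hs0, hle⟩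
  · left; rw [hg, map_zero, mul_zero]
  by_cases hX0 : X = 0
  · left; rw [hX0, zero_mul]
  by_cases hg0 : g = 0
  · left; rw [hg0, map_zero, mul_zero]
  right
  refine ⟨algebraMap K L s, Finset.mem_image_of_mem _ hs, by simpa using hs0, ?_⟩
  rw [w.ord_mul hX0 (by simpa using hg0), hwv.2, hwv.2]
  have h1 : 0 ≤ w.ord X := hX.resolve_left hX0
  have h2 : (e : ℤ) * (j * v.ord s) ≤ e * v.ord g :=
    mul_le_mul_of_nonneg_left hle (by positivity)
  have h3 : (j : ℤ) * (e * v.ord s) = e * (j * v.ord s) := by ring
  rw [h3]
  linarith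

theorem exists_over' [Algebra.IsAlgebraic K L] (w : Place k L) :
    ∃ (e : ℕ) (v : Place k K), Over w v e := by
  refine exists_over w ?_
  by_contra hcon
  push Not at hcon
  obtain ⟨t, -, ht⟩ := w.surj
  have h1 := ord_eq_zero_of_alg (K0 := K) (K1 := L) (K2 := L) w hcon t
  rw [Algebra.algebraMap_self, RingHom.id_apply, ht] at h1
  exact one_ne_zero h1

end

theorem main (h : S_FRAME.{u, v}) (h' : S_DIVI.{u, v}) : S_PULL.{u, v} := by
  classical
  intro k K L _ _ _ _ _ _ _ _ _ n htr hfin Bd S m j y E hy hE ω hω
  refine ⟨?_, ?_, ?_⟩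
  · intro A D
    have e : (Matrix.of fun a b => (∑ j, A a j • D j) (algebraMap K L (y b))) =
        A * Matrix.of fun a b => D a (algebraMap K L (y b)) := by
      ext a b
      rw [Matrix.of_apply, Matrix.mul_apply, sum_app]
      rfl
    show (Matrix.of fun a b => (∑ j, A a j • D j) (algebraMap K L (y b))).det ^ m * _ = _
    rw [e, Matrix.det_mul, mul_pow, mul_assoc]
  · intro w hw hB D hD
    obtain ⟨e, v, hwv⟩ := exists_over' (K := K) w
    have hv := h' k K L n v w e hwv hw
    obtain ⟨y', E', i0, hy', hE', ht, hyr, hpres⟩ := h k K n htr hfin v hv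
    have hnB : ¬ Bd v := fun hb => hB ⟨v, e, hwv, hb⟩
    have hd := hω.2.1 v hv hnB E' (fun l f hf => hpres l f hf)
    show Dom w _ j ((Matrix.of fun a b => D a (algebraMap K L (y b))).det ^ m *
      algebraMap K L (ω E))
    rw [form_eq y y' hy hy' E E' hE hE' ω hω.1 D]
    refine dom_up hwv ?_ hd
    have h1 : Ge w 0 (Matrix.of fun a c => D a (algebraMap K L (y' c))).det :=
      ge_det w _ (fun a c => hD a _ (hwv.reg.2 (hyr c)))
    simpa using h1.pow m
  · intro w hw hB D hD
    obtain ⟨v, e, hwv, hBv⟩ := hB
    have hv := h' k K L n v w e hwv hw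
    obtain ⟨y', E', i0, hy', hE', ht, hyr, hpres⟩ := h k K n htr hfin v hv
    have ht0 : y' i0 ≠ 0 := by
      intro h0
      rw [h0, v.ord_zero] at ht
      exact zero_ne_one ht
    have hT0 : algebraMap K L (y' i0) ≠ 0 := by simpa using ht0
    -- the logarithmic frame
    let c : Fin n → K := fun i => if i = i0 then y' i0 else 1
    have hc : ∀ i, v.Reg (c i) := by
      intro i
      by_cases hi : i = i0
      · simp only [c, hi, if_true]; exact hyr i0
      · simp only [c, hi, if_false]; exact v.reg_one
    have hdet : (Matrix.diagonal c).det = y' i0 := by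
      rw [Matrix.det_diagonal]
      simp only [c, Finset.prod_ite_eq', Finset.mem_univ, if_true]
    obtain ⟨E'', hE''⟩ : ∃ E'' : Fin n → Derivation k K K, E'' = fun i => c i • E' i := ⟨_, rfl⟩
    have hEa : ∀ i f, E'' i f = c i * E' i f := by
      intro i f
      rw [hE'']; rfl
    have hω2 : ω E'' = (y' i0) ^ m * ω E' := by
      have h1 := hω.1 (Matrix.diagonal c) E'
      have h2 : (fun i => ∑ j, (Matrix.diagonal c) i j • E' j) = E'' := by
        funext i
        rw [hE'', Finset.sum_eq_single i]
        · rw [Matrix.diagonal_apply_eq]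
        · intro b _ hb
          rw [Matrix.diagonal_apply_ne _ (Ne.symm hb), zero_smul]
        · intro hi
          exact absurd (Finset.mem_univ i) hi
      rw [h2, hdet] at h1
      exact h1
    have hlog : ∀ l, ∀ f, v.Reg (E'' l f / f) := by
      intro l f
      refine log_of_pres v (E'' l) (fun g hg => ?_) ht0 ht ?_ f
      · rw [hEa]
        exact v.reg_mul (hc l) (hpres l g hg)
      · rw [hEa, hE']
        by_cases hl : l = i0
        · simp only [c, hl, if_true, mul_one]
          rw [div_self ht0]
          exact v.reg_one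
        · simp only [hl, if_false, mul_zero, zero_div]
          exact v.reg_zero
    have hd := hω.2.2 v hv hBv E'' hlog
    show Dom w _ j ((Matrix.of fun a b => D a (algebraMap K L (y b))).det ^ m *
      algebraMap K L (ω E))
    rw [form_eq y y' hy hy' E E' hE hE' ω hω.1 D]
    let M2 : Matrix (Fin n) (Fin n) L := Matrix.of fun a b =>
      if b = i0 then D a (algebraMap K L (y' i0)) / algebraMap K L (y' i0)
      else D a (algebraMap K L (y' b))
    have hM : (Matrix.of fun a b => D a (algebraMap K L (y' b))) =
        M2 * (Matrix.diagonal fun i => algebraMap K L (c i)) := by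
      ext a b
      rw [Matrix.mul_diagonal]
      simp only [Matrix.of_apply, M2, c]
      by_cases hb : b = i0
      · simp only [hb, if_true]
        rw [div_mul_cancel₀ _ hT0]
      · simp only [hb, if_false, map_one, mul_one]
    have hdet2 : (Matrix.diagonal fun i => algebraMap K L (c i)).det =
        algebraMap K L (y' i0) := by
      rw [Matrix.det_diagonal, ← map_prod, ← Matrix.det_diagonal, hdet]
    have hfin2 : (Matrix.of fun a b => D a (algebraMap K L (y' b))).det ^ m *
        algebraMap K L (ω E') = M2.det ^ m * algebraMap K L (ω E'') := by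
      rw [hM, Matrix.det_mul, hdet2, hω2, map_mul, map_pow, mul_pow, mul_assoc]
    rw [hfin2]
    refine dom_up hwv ?_ hd
    have h1 : Ge w 0 M2.det := by
      refine ge_det w _ (fun a b => ?_)
      by_cases hb : b = i0
      · simp only [M2, Matrix.of_apply, hb, if_true]
        exact hD a _
      · simp only [M2, Matrix.of_apply, hb, if_false]
        by_cases hz : algebraMap K L (y' b) = 0
        · rw [hz, map_zero]; exact Ge.zero
        · have h2 : Ge w 0 (D a (algebraMap K L (y' b)) / algebraMap K L (y' b)) := hD a _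
          have h3 : Ge w 0 (algebraMap K L (y' b)) := hwv.reg.2 (hyr b)
          have h4 := h2.mul h3
          rw [div_mul_cancel₀ _ hz] at h4
          simpa using h4
    simpa using h1.pow m

end Pool.Agent.W73.PG.PULL
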